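import Pool.Agent.H40.Cls.Result

/-!
# Abundance for complete intersections, of any dimension and with arbitrary singularities, in
# products of flag varieties of the classical groups

`W` is the product over `τ` of the varieties of isotropic flags in `ℂ ^ n τ`, for a form `B τ`
which is zero, symplectic, or symmetric and nondegenerate, with steps of the dimensions `k i`,
`t i = τ`.  Its homogeneous coordinates are the Plücker coordinates of the steps, and they define
the line bundles `O(b)`, `b : I → ℤ`.  The canonical bundle of `W` is `O(-r)` with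
`r i = q i - p i`, where `p i` and `q i` are the dimensions of the step before and of the step
after the step `i`; if it is the first one, then `p i = 0`; if it is the last one, then `q i` is
`n (t i)`, `n (t i) + 1 - k i` and `n (t i) - 1 - k i` respectively.  `X ⊆ W` is cut out by the
`F j`, of multidegrees `d j`.  (If `X` is the complete intersection in `W` of the hypersurfaces
`F j = 0`, then the canonical class of `X` is `O(κ)` with `κ i = ∑ j, d j i - r i`.)
-/

set_option autoImplicit false

namespace Pool.Agent.Results.MP_c2a5fc_ag.ClassicalFlagVarieties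

open MvPolynomial Pool.Agent.H22.Sub Pool.Agent.H40.Flag Pool.Agent.H40.Cls

/-- If `O(κ + β)`, `β ≥ 0`, is nef on `X`, then it is semiample on `X`.  For `β = 0` this is
abundance for `X`. -/
theorem result {T I J : Type} [Fintype I] [Fintype J] (n : T → ℕ) (κ : T → Kind)
    (B : ∀ τ, Matrix (Fin (n τ)) (Fin (n τ)) ℂ) (hB : ∀ τ, IsForm (κ τ) (B τ))
    (t : I → T) (k : I → ℕ) (hk : ∀ i, 0 < k i ∧ k i < n (t i))
    (hk2 : ∀ i, κ (t i) ≠ Kind.gl → 2 * k i ≤ n (t i))
    (hinj : ∀ i j, t i = t j → k i = k j → i = j) (p q : I → ℕ)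
    (hp : ∀ i, IsGreatest {x | x = 0 ∨ ∃ j, t j = t i ∧ k j = x ∧ x < k i} (p i))
    (hq : ∀ i, IsLeast {x | x = endv (κ (t i)) (n (t i)) (k i) ∨
      ∃ j, t j = t i ∧ k j = x ∧ k i < x} (q i))
    (F : J → MvPolynomial (Crd n t k) ℂ) (d : J → I → ℕ)
    (hF : ∀ j, MultiHom Sigma.fst (F j) (fun i => (d j i : ℤ))) (β : I → ℕ)
    (hnef : IsNef Sigma.fst {x | x ∈ IsoFlags n B t k ∧ ∀ j, eval x (F j) = 0}
      (fun i => ∑ j, (d j i : ℤ) - ((q i : ℤ) - p i) + β i)) :
    IsSemiample Sigma.fst {x | x ∈ IsoFlags n B t k ∧ ∀ j, eval x (F j) = 0}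
      (fun i => ∑ j, (d j i : ℤ) - ((q i : ℤ) - p i) + β i) :=
  semiample_of_nef hB hinj hk hk2 hp hq hF le_rfl
    (fun i => by rw [Nat.cast_one, one_mul]; exact le_add_of_nonneg_right (Int.natCast_nonneg _))
    hnef

end Pool.Agent.Results.MP_c2a5fc_ag.ClassicalFlagVarieties
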