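import Pool.Agent.H22.Sub.Main

/-!
# Abundance for complete intersections, of any dimension and with arbitrary singularities, in
# projective varieties with large fibres

`W` is a closed subset of a finite product of complex projective spaces, the set of common zeros
of the `H l`; `X ⊆ W` is cut out by the `F j`, of multidegrees `d j`.  (If the canonical class of
`W` is `O(-r)` and `X` is the complete intersection in `W` of the hypersurfaces `F j = 0`, then
the canonical class of `X` is `O(κ)` with `κ i = ∑ j, d j i - r i`.)  For each factor `i` with
`0 < r i` we assume that either the `H l` do not involve the `i`-th projective space (`W` is a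
product with it), and its dimension is at least `r i - 1`, or at every point `x` of `X` all
components through `x` of the fibre of the projection of `W` to the other factors have dimension
at least `r i`.
-/

set_option autoImplicit false

namespace Pool.Agent.Results.MP_c2a5fc_ag.FibredAmbient

open MvPolynomial Pool.Agent.H22.Sub

/-- If `O(κ + β)`, `β ≥ 0`, is nef on `X`, then it is semiample on `X`.  For `β = 0` this is
abundance for `X`. -/
theorem result {S I Λ J : Type} [Fintype S] [Fintype I] [Fintype J] (π : S → I)
    (H : Λ → MvPolynomial S ℂ) (η : Λ → I → ℕ)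
    (hH : ∀ l, MultiHom π (H l) (fun i => (η l i : ℤ)))
    (F : J → MvPolynomial S ℂ) (d : J → I → ℕ)
    (hF : ∀ j, MultiHom π (F j) (fun i => (d j i : ℤ)))
    (r : I → ℤ)
    (hr : ∀ i, 0 < r i → ((∀ l, η l i = 0) ∧ r i ≤ Nat.card {s // π s = i}) ∨
      ∀ x ∈ Locus π (Sum.elim H F),
        ∀ p ∈ (Ideal.span (Set.range fun l => onFactor π i x (H l))).minimalPrimes,
          (∀ g ∈ p, eval (fun s : {s // π s = i} => x s.1) g = 0) →
          (((r i).toNat + 1 : ℕ) : WithBot ℕ∞) ≤
            ringKrullDim (MvPolynomial {s // π s = i} ℂ ⧸ p))
    (β : I → ℕ)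
    (hnef : IsNef π (Locus π (Sum.elim H F)) (fun i => ∑ j, (d j i : ℤ) - r i + β i)) :
    IsSemiample π (Locus π (Sum.elim H F)) (fun i => ∑ j, (d j i : ℤ) - r i + β i) :=
  semiample_of_nef π H η hH F d hF r hr _
    (fun _ => le_add_of_nonneg_right (Int.natCast_nonneg _)) hnef

end Pool.Agent.Results.MP_c2a5fc_ag.FibredAmbient
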