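import Pool.Agent.H6.Ab.Bundle

/-!
# Abundance for complete intersections in toric bundles

The base `Y = ∏ a, Y_a` has the coordinates `y b`, `b : B`, of degrees `C b` in the group `M` of
line bundles and the equations `G e`; `Z → Y` is the toric bundle with the fibre coordinates
`x i`, `i : I`, of degrees `D i`, and polarization `θ`.  `X` is a union of connected components of
the common zeros in `Z` of the homogeneous polynomials `F j` of degrees `β j`.  If `κ a` is the
canonical class of `Y_a`, then the canonical bundle of `X` has the class
`∑ a, κ a + ∑ j, β j - ∑ i, D i` by adjunction.  If it is nef, then it is semiample.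

For an empty base this is abundance for complete intersections in toric varieties, proved before
in `Pool.Agent.H24.Ab`, whose method is used here.
-/

set_option autoImplicit false

namespace Pool.Agent.Results.MP_c2a5fc_ag.ToricBundles

open MvPolynomial Pool.Agent.H6.Ab

/-- Abundance for every (union of connected components of a) complete intersection in a toric
bundle over a product of good factors, under the condition that at every point `x` of `X` the
differentials of those `F j`, whose degree is not in the cone of the degrees of the coordinates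
which do not vanish at `x`, are linearly independent. -/
theorem result {A B E I J M : Type} [Fintype A] [Fintype B] [Fintype E] [Fintype I] [Fintype J]
    [AddCommGroup M] [Module.Finite ℤ M] (s : B → A) (t : E → A) (C : B → M) (D : I → M) (θ : M)
    (G : E → MvPolynomial B ℂ) (hG : ∀ e, ∃ γ, IsWeightedHomogeneous C (G e) γ)
    (hvars : ∀ e, ∀ b ∈ (G e).vars, s b = t e)
    (β : J → M) (F : J → MvPolynomial (B ⊕ I) ℂ)
    (hF : ∀ j, IsWeightedHomogeneous (Sum.elim C D) (F j) (β j))
    (X : Set (B ⊕ I → ℂ)) (hX : IsSub (Sum.elim C D) (BundleCone C D θ G F) X)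
    (hX' : IsSub (Sum.elim C D) (BundleCone C D θ G F) (BundleCone C D θ G F \ X))
    (hfree : ∀ x ∈ X, AddSubgroup.closure (Sum.elim C D '' {k | x k ≠ 0}) = ⊤)
    (hsmooth : ∀ x ∈ X, LinearIndependent ℂ
      (fun (j : {j // ¬ InCone (Sum.elim C D) {k | x k ≠ 0} (β j)}) (k : B ⊕ I) =>
        eval x (pderiv k (F j.1))))
    (κ : A → M) (hY : ∀ a, GoodFactor s t C G a (κ a) ((fun x b => x (Sum.inl b)) '' X))
    (hnef : IsNef (Sum.elim C D) X (∑ a, κ a + ∑ j, β j - ∑ i, D i)) :
    IsSemiample (Sum.elim C D) X (∑ a, κ a + ∑ j, β j - ∑ i, D i) := by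
  refine good_abundance s t C D θ G hG hvars β F hF X hX hX' hfree hsmooth κ hY
    (∑ a, κ a + ∑ j, β j - ∑ i, D i) 1 1 le_rfl (fun x hx => ?_) hnef
  rw [sub_self]
  exact InCone.zero

end Pool.Agent.Results.MP_c2a5fc_ag.ToricBundles
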