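import Pool.Agent.H88.Abund.Main

/-!
# Abundance for complete intersections in (abelian variety) × (product of projective spaces)

Let `A = ℂ^g / Λ` be a complex torus and let `X ⊆ A × P^{n 1} × … × P^{n r}` be defined by the
vanishing of nonzero sections `F j` of line bundles `L j ⊠ O(d j)`; `X` may be singular, reducible
and nonreduced, of any dimension. If `K = ∑ (L j, d j) - (0, n + 1)` (the canonical class of `X` if
`X` is a complete intersection) is nonnegative on every rational curve in `X`, then `2 K` is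
generated by its global sections over (the reduction of) `X`.
-/

set_option autoImplicit false

namespace Pool.Agent.Results.MP_c2a5fc_ag.TorusProducts

open Pool.Agent.H88.Abund

theorem result {g r m : ℕ} (n : Fin r → ℕ) (Λ : Submodule ℤ (Fin g → ℂ)) [DiscreteTopology Λ]
    [IsZLattice ℝ Λ] (φ : Fin m → Factor Λ) (d : Fin m → Fin r → ℕ)
    (F : Fin m → (Fin g → ℂ) → MvPolynomial (Co n) ℂ)
    (hF : ∀ j, IsEquation (φ j) (d j) (F j)) (hne : ∀ j, ∃ z, F j z ≠ 0)
    (hnef : ∀ z δ f, IsRatCurve F z δ f → 0 ≤ ∑ i, canDeg n d i * (δ i : ℤ)) :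
    ∀ p ∈ Coord F, ∃ s, IsSection (Coord F) Λ (fun l z => (∏ j, (φ j).e l z) ^ 2)
      (fun i => 2 * canDeg n d i) s ∧ s p ≠ 0 := by
  intro p hp
  obtain ⟨s, hs, hsp⟩ := main φ d F hF hne (Factor.one Λ) _ (isTheta_one Λ)
    ⟨0, one_ne_zero⟩ 1 (fun _ => 0) (fun _ => le_rfl)
    (fun z δ f hc => by simpa only [add_zero] using hnef z δ f hc) p hp
  refine ⟨s, ⟨hs.holo, ?_, ?_⟩, hsp⟩
  · intro l w hw
    have h := hs.lat l w hw
    simpa only [Factor.one_e, one_mul, pow_one] using h
  · intro t ht w hw
    have h := hs.scal t ht w hw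
    simpa only [Nat.cast_one, mul_one, add_zero] using h

end Pool.Agent.Results.MP_c2a5fc_ag.TorusProducts
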